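import Pool.Agent.Results.MP_4abfef_an.TypicalMultipleMixing

/-!
# A typical extension has exactly the mixing multiplicities of the base

For every automorphism `T` of a nonatomic standard probability space (mixing or not) a typical
extension `S` of `T` satisfies, for all `k ≥ 1` simultaneously, `S ∈ Mix(k)` if and only if
`T ∈ Mix(k)`.
-/

set_option autoImplicit false

open MeasureTheory Set Filter Topology

namespace Pool.Agent.Results.MP_4abfef_an.ExactMultiplicities

open Pool.Agent.Results.MP_4abfef_an.TypicalMultipleMixing Pool.H359R3.MX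

section Factor

variable {X Y : Type*} [MeasurableSpace X] [MeasurableSpace Y] {μ : Measure X} {ν : Measure Y}

theorem ae_symm {T : X ≃ᵐ X} {S : (X × Y) ≃ᵐ (X × Y)} (h : IsExt μ ν T S) :
    ∀ᵐ z ∂(μ.prod ν), (S.symm z).1 = T.symm z.1 := by
  have hR : MeasurePreserving S.symm (μ.prod ν) (μ.prod ν) := MeasurePreserving.symm S h.1
  have h1 := hR.quasiMeasurePreserving.ae h.2
  filter_upwards [h1] with z hz
  rw [MeasurableEquiv.apply_symm_apply] at hz
  rw [hz, MeasurableEquiv.symm_apply_apply]

theorem ae_iter {T : X ≃ᵐ X} {S : (X × Y) ≃ᵐ (X × Y)} (h : IsExt μ ν T S) (n : ℕ) :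
    ∀ᵐ z ∂(μ.prod ν), ((S.symm : X × Y → X × Y)^[n] z).1 = (T.symm : X → X)^[n] z.1 := by
  have hR : MeasurePreserving S.symm (μ.prod ν) (μ.prod ν) := MeasurePreserving.symm S h.1
  induction n with
  | zero => exact Eventually.of_forall fun z => rfl
  | succ n ih =>
    have h1 := (hR.iterate n).quasiMeasurePreserving.ae (ae_symm h)
    filter_upwards [ih, h1] with z hz1 hz2
    rw [Function.iterate_succ_apply', Function.iterate_succ_apply', hz2, hz1]

/-- a factor of an automorphism in `Mix(k)` is in `Mix(k)` -/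
theorem factor [IsProbabilityMeasure μ] [IsProbabilityMeasure ν] {T : X ≃ᵐ X}
    {S : (X × Y) ≃ᵐ (X × Y)} (h : IsExt μ ν T S) {k : ℕ} (hS : MixS false k (μ.prod ν) S) :
    MixS false k μ T := by
  intro A hA
  have hreal : ∀ B : Set X, (μ.prod ν).real (B ×ˢ (univ : Set Y)) = μ.real B := by
    intro B
    rw [measureReal_prod_prod, probReal_univ, mul_one]
  have h1 := hS (fun j => A j ×ˢ univ) fun j => (hA j).prod MeasurableSet.univ
  simp only [hreal] at h1
  refine h1.congr fun n => ?_
  rw [← hreal]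
  refine measureReal_congr ?_
  have h2 : ∀ᵐ z ∂(μ.prod ν), ∀ j : Fin (k + 1),
      ((S.symm : X × Y → X × Y)^[ps n j] z).1 = (T.symm : X → X)^[ps n j] z.1 :=
    ae_all_iff.2 fun j => ae_iter h (ps n j)
  filter_upwards [h2] with z hz
  apply propext
  show z ∈ (⋂ j, ((S.symm : X × Y → X × Y)^[ps n j]) ⁻¹' (A j ×ˢ univ)) ↔
    z ∈ (⋂ j, ((T.symm : X → X)^[ps n j]) ⁻¹' A j) ×ˢ (univ : Set Y)
  simp only [mem_iInter, mem_preimage, mem_prod, mem_univ, and_true]
  exact forall_congr' fun j => by rw [hz j]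

end Factor

/-- **Theorem.** Let `(X, μ)`, `(Y, ν)` be nonatomic standard probability spaces and `T` an
automorphism of `(X, μ)`. Then the set of the extensions `S` of `T` such that, for all `k ≥ 1`,
`S ∈ Mix(k)` if and only if `T ∈ Mix(k)`, is comeager in `ℰ(T)` with the Halmos topology. -/
theorem result {X Y : Type*} [MeasurableSpace X] [StandardBorelSpace X] [MeasurableSpace Y]
    [StandardBorelSpace Y] (μ : Measure X) [IsProbabilityMeasure μ] [NullSingletonClass μ]
    (ν : Measure Y) [IsProbabilityMeasure ν] [NullSingletonClass ν] (T : PreAut μ) :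
    {S : Ext μ ν T | ∀ k : ℕ, 1 ≤ k → (S.1 ∈ MixClass k (μ.prod ν) ↔ IsMix k μ T)} ∈
      residual (Ext μ ν T) := by
  have h0 : ∀ k : ℕ, ∀ᶠ S in residual (Ext μ ν T),
      1 ≤ k → (S.1 ∈ MixClass k (μ.prod ν) ↔ IsMix k μ T) := by
    intro k
    by_cases hk : 1 ≤ k
    · by_cases hT : IsMix k μ T
      · have h1 := TypicalMultipleMixing.result μ ν k hk T hT
        filter_upwards [h1] with S hS _
        exact ⟨fun _ => hT, fun _ => hS⟩
      · refine Eventually.of_forall fun S _ => ⟨fun hS => ?_, fun h => absurd h hT⟩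
        obtain ⟨S', hS'⟩ := Quotient.exists_rep S.1
        have hSe : cls S' = S.1 := hS'
        have h2 : IsExt μ ν T.1 S'.1 := ext_isExt μ ν T S' (by rw [hSe]; exact S.2)
        exact (isMix_iff k μ T).2 (factor h2 ((isMix_iff k (μ.prod ν) S').1 (hS S' hSe)))
    · exact Eventually.of_forall fun S h => absurd h hk
  exact eventually_countable_forall.2 h0

end Pool.Agent.Results.MP_4abfef_an.ExactMultiplicities
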